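import Pool.Agent.Y911.AA.Final
import Pool.Agent.H170R2.PC.Primes

/-! The lower bound for the number of exceptions: triples a member of which is divisible by the
square of a prime. -/

set_option autoImplicit false

namespace Pool.Agent.Y911.AB

open Finset Filter Pool.Agent.Results.MP_1ea25c_nt.AlmostAllTriples
open Pool.Agent.Y911.AA (viol)

/-- the primes in `[x, 2 x)` -/
noncomputable def DP (x : ℝ) : Finset ℕ :=
  (range (⌈2 * x⌉₊ + 1)).filter (fun p => p.Prime ∧ x ≤ p ∧ (p : ℝ) < 2 * x)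

theorem mem_DP {x : ℝ} {p : ℕ} : p ∈ DP x ↔ p.Prime ∧ x ≤ p ∧ (p : ℝ) < 2 * x := by
  rw [DP, mem_filter, mem_range]
  refine ⟨fun h => h.2, fun h => ⟨?_, h⟩⟩
  have : p < ⌈2 * x⌉₊ := Nat.lt_ceil.2 h.2.2
  omega

theorem card_DP {η : ℝ} (hη : 0 < η) (hη1 : η ≤ 1) :
    ∀ᶠ x : ℝ in atTop, x ^ (1 - η) ≤ ((DP x).card : ℝ) := by
  filter_upwards [Pool.Agent.H170R2.PC.dyadic_primes hη hη1] with x hx
  exact hx _ fun p h1 h2 h3 => mem_DP.2 ⟨h1, h2, h3⟩

theorem rad_le {m k b : ℕ} (hm : m.Prime) (hk : k.Prime) (hb : b.Prime) :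
    m * radical (m ^ 2 * k * b * (m ^ 2 * k + b)) ≤ m ^ 2 * k * b * (m ^ 2 * k + b) := by
  have hm0 := hm.pos
  have hk0 := hk.pos
  have hb0 := hb.pos
  have h1 : radical (m ^ 2 * k * b * (m ^ 2 * k + b)) ∣ m * k * b * (m ^ 2 * k + b) := by
    have h2 : (m ^ 2 * k * b * (m ^ 2 * k + b)).primeFactors =
        (m * k * b * (m ^ 2 * k + b)).primeFactors := by
      rw [Nat.primeFactors_mul (by positivity) (by positivity),
        Nat.primeFactors_mul (by positivity) (by positivity),
        Nat.primeFactors_mul (by positivity) (by positivity),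
        Nat.primeFactors_mul (a := m * k * b) (by positivity) (by positivity),
        Nat.primeFactors_mul (a := m * k) (by positivity) (by positivity),
        Nat.primeFactors_mul (a := m) (by positivity) (by positivity),
        Nat.primeFactors_pow _ (by norm_num)]
    unfold radical
    rw [h2]
    exact Nat.prod_primeFactors_dvd _
  calc m * radical (m ^ 2 * k * b * (m ^ 2 * k + b)) ≤ m * (m * k * b * (m ^ 2 * k + b)) :=
        Nat.mul_le_mul_left _ (Nat.le_of_dvd (by positivity) h1)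
    _ = _ := by ring

/-- **The lower bound.** -/
theorem lower_exc {M ε : ℝ} (hM : 1 / 3 < M) (hM1 : M < 3 / 8) (hε : 0 < ε) :
    ∃ X₀ : ℝ, ∀ X : ℝ, X₀ ≤ X → X ^ (1 - M - ε) ≤ ((viol M X).ncard : ℝ) := by
  classical
  obtain ⟨η, hη⟩ : ∃ η : ℝ, η = min 1 (ε / 2) := ⟨_, rfl⟩
  have hη0 : 0 < η := by rw [hη]; exact lt_min one_pos (by positivity)
  have hη1 : η ≤ 1 := by rw [hη]; exact min_le_left _ _
  have hηε : η ≤ ε / 2 := by rw [hη]; exact min_le_right _ _
  have hprime := card_DP hη0 hη1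
  -- the three sizes
  have t1 : Tendsto (fun X : ℝ => X ^ (3 * M - 1)) atTop atTop :=
    tendsto_rpow_atTop (by linarith)
  have t2 : Tendsto (fun X : ℝ => 1 / 64 * X ^ (2 - 5 * M)) atTop atTop :=
    (tendsto_rpow_atTop (by linarith)).const_mul_atTop (by norm_num)
  have t3 : Tendsto (fun X : ℝ => 1 / 4 * X ^ M) atTop atTop :=
    (tendsto_rpow_atTop (by linarith)).const_mul_atTop (by norm_num)
  have t4 : Tendsto (fun X : ℝ => X ^ (3 - 8 * M)) atTop atTop :=
    tendsto_rpow_atTop (by linarith)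
  have t5 : Tendsto (fun X : ℝ => X ^ (ε / 2)) atTop atTop :=
    tendsto_rpow_atTop (by linarith)
  have key : ∀ᶠ X : ℝ in atTop, X ^ (1 - M - ε) ≤ ((viol M X).ncard : ℝ) := by
    filter_upwards [t1.eventually hprime, t2.eventually hprime, t3.eventually hprime,
      t4.eventually (eventually_gt_atTop 128), t5.eventually (eventually_ge_atTop 256),
      eventually_ge_atTop 1] with X h1 h2 h3 h4 h5 hX
    have hX0 : 0 < X := by linarith
    obtain ⟨P, hP⟩ : ∃ P : ℝ, P = X ^ (3 * M - 1) := ⟨_, rfl⟩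
    obtain ⟨Z, hZ⟩ : ∃ Z : ℝ, Z = X ^ M := ⟨_, rfl⟩
    obtain ⟨Y, hY⟩ : ∃ Y : ℝ, Y = 1 / 64 * X ^ (2 - 5 * M) := ⟨_, rfl⟩
    rw [← hP] at h1
    rw [← hY] at h2
    rw [← hZ] at h3
    have hP0 : 0 < P := by rw [hP]; positivity
    have hY0 : 0 < Y := by rw [hY]; positivity
    have hZ0 : 0 < Z := by rw [hZ]; positivity
    have hPY : 64 * Y * P ^ 2 = Z := by
      rw [hY, hP, hZ, ← Real.rpow_natCast, ← Real.rpow_mul hX0.le]
      calc 64 * (1 / 64 * X ^ (2 - 5 * M)) * X ^ ((3 * M - 1) * ((2 : ℕ) : ℝ)) =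
            X ^ (2 - 5 * M) * X ^ ((3 * M - 1) * ((2 : ℕ) : ℝ)) := by ring
        _ = _ := by
            rw [← Real.rpow_add hX0]
            congr 1
            push_cast
            ring
    have hPY2 : 2 * P < Y := by
      have e : X ^ (2 - 5 * M) = X ^ (3 - 8 * M) * P := by
        rw [hP, ← Real.rpow_add hX0]
        congr 1
        ring
      rw [hY, e]
      nlinarith
    have hZP : Z ^ 3 = X * P := by
      rw [hZ, hP, ← Real.rpow_natCast, ← Real.rpow_mul hX0.le]
      conv_rhs => rw [← Real.rpow_one X, ← Real.rpow_mul hX0.le]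
      rw [← Real.rpow_add hX0]
      congr 1
      push_cast
      ring
    have hfin : (viol M X).Finite := (triples_finite hX).subset fun p hp => hp.1
    rw [Set.ncard_eq_toFinset_card _ hfin]
    have hcard : (DP P ×ˢ (DP Y ×ˢ DP (1 / 4 * Z))).card ≤ hfin.toFinset.card := by
      refine card_le_card_of_injOn (fun x => (x.1 ^ 2 * x.2.1, x.2.2)) ?_ ?_
      · rintro ⟨m, k, b⟩ hx
        rw [mem_coe, mem_product, mem_product, mem_DP, mem_DP, mem_DP] at hx
        obtain ⟨⟨m1, m2, m3⟩, ⟨k1, k2, k3⟩, b1, b2, b3⟩ := hx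
        simp only at m1 m2 m3 k1 k2 k3 b1 b2 b3
        rw [mem_coe, Set.Finite.mem_toFinset]
        have hm0 : (0 : ℝ) < m := hP0.trans_le m2
        have hk0 : (0 : ℝ) < k := hY0.trans_le k2
        have hb0 : (0 : ℝ) < b := by exact_mod_cast b1.pos
        have ha : ((m ^ 2 * k : ℕ) : ℝ) < Z / 8 := by
          push_cast
          calc (m : ℝ) ^ 2 * k < (2 * P) ^ 2 * (2 * Y) := by
                apply mul_lt_mul'' (pow_lt_pow_left₀ m3 hm0.le (by norm_num)) k3 (by positivity)
                  hk0.le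
            _ = 64 * Y * P ^ 2 / 8 := by ring
            _ = Z / 8 := by rw [hPY]
        have hab : m ^ 2 * k < b := by
          have : ((m ^ 2 * k : ℕ) : ℝ) < b := by linarith
          exact_mod_cast this
        have ha0 : 0 < m ^ 2 * k := Nat.mul_pos (pow_pos m1.pos 2) k1.pos
        have hc : ((m ^ 2 * k + b : ℕ) : ℝ) ≤ Z := by
          rw [Nat.cast_add]
          linarith
        have hc0 : (0 : ℝ) < ((m ^ 2 * k + b : ℕ) : ℝ) := by exact_mod_cast (by omega)
        have hcop : Nat.Coprime (m ^ 2 * k) b := by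
          rw [Nat.coprime_comm, b1.coprime_iff_not_dvd]
          intro h
          exact absurd (Nat.le_of_dvd ha0 h) (not_le.2 hab)
        have hrad : (rad3 (m ^ 2 * k, b) : ℝ) ≤ ((m ^ 2 * k + b : ℕ) : ℝ) ^ 3 / P := by
          have e1 := rad_le m1 k1 b1
          have e2 : (m : ℝ) * rad3 (m ^ 2 * k, b) ≤ ((m ^ 2 * k * b * (m ^ 2 * k + b) : ℕ) : ℝ) := by
            exact_mod_cast e1
          have e3 : m ^ 2 * k * b * (m ^ 2 * k + b) ≤ (m ^ 2 * k + b) ^ 3 := by
            calc m ^ 2 * k * b * (m ^ 2 * k + b) ≤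
                (m ^ 2 * k + b) * (m ^ 2 * k + b) * (m ^ 2 * k + b) :=
                  Nat.mul_le_mul_right _ (Nat.mul_le_mul (by omega) (by omega))
              _ = _ := by ring
          have e4 : ((m ^ 2 * k * b * (m ^ 2 * k + b) : ℕ) : ℝ) ≤
              ((m ^ 2 * k + b : ℕ) : ℝ) ^ 3 := by exact_mod_cast e3
          rw [le_div_iff₀ hP0]
          have e5 : (0 : ℝ) ≤ rad3 (m ^ 2 * k, b) := Nat.cast_nonneg _
          calc (rad3 (m ^ 2 * k, b) : ℝ) * P ≤ (rad3 (m ^ 2 * k, b) : ℝ) * m :=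
                mul_le_mul_of_nonneg_left m2 e5
            _ = m * rad3 (m ^ 2 * k, b) := mul_comm _ _
            _ ≤ _ := e2.trans e4
        refine ⟨⟨ha0, hab.le, hcop, ?_⟩, ?_⟩
        · refine hrad.trans ?_
          rw [div_le_iff₀ hP0, ← hZP]
          exact pow_le_pow_left₀ hc0.le hc 3
        · show (rad3 (m ^ 2 * k, b) : ℝ) ^ M ≤ ((m ^ 2 * k + b : ℕ) : ℝ)
          obtain ⟨c, hcd⟩ : ∃ c : ℝ, c = ((m ^ 2 * k + b : ℕ) : ℝ) := ⟨_, rfl⟩
          rw [← hcd] at hrad hc hc0 ⊢
          have hM0 : 0 < M := by linarith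
          calc (rad3 (m ^ 2 * k, b) : ℝ) ^ M ≤ (c ^ 3 / P) ^ M :=
                Real.rpow_le_rpow (Nat.cast_nonneg _) hrad hM0.le
            _ = c ^ (3 * M) / P ^ M := by
                rw [Real.div_rpow (by positivity) hP0.le, ← Real.rpow_natCast c,
                  ← Real.rpow_mul hc0.le]
                norm_num
            _ = c * (c ^ (3 * M - 1) / P ^ M) := by
                rw [← mul_div_assoc]
                congr 1
                conv_rhs => rw [← Real.rpow_one c, ← Real.rpow_mul hc0.le]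
                rw [← Real.rpow_add hc0]
                congr 1
                ring
            _ ≤ c * 1 := by
                apply mul_le_mul_of_nonneg_left _ hc0.le
                rw [div_le_one (by positivity)]
                calc c ^ (3 * M - 1) ≤ Z ^ (3 * M - 1) :=
                      Real.rpow_le_rpow hc0.le hc (by linarith)
                  _ = P ^ M := by
                      rw [hZ, hP, ← Real.rpow_mul hX0.le, ← Real.rpow_mul hX0.le]
                      congr 1
                      ring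
            _ = c := mul_one c
      · rintro ⟨m, k, b⟩ hx ⟨m', k', b'⟩ hx' h
        rw [mem_coe, mem_product, mem_product, mem_DP, mem_DP, mem_DP] at hx hx'
        obtain ⟨⟨m1, m2, m3⟩, ⟨k1, k2, k3⟩, b1, b2, b3⟩ := hx
        obtain ⟨⟨m1', m2', m3'⟩, ⟨k1', k2', k3'⟩, b1', b2', b3'⟩ := hx'
        simp only at m1 m2 m3 k1 k2 k3 b1 b2 b3 m1' m2' m3' k1' k2' k3' b1' b2' b3'
        simp only [Prod.mk.injEq] at h
        obtain ⟨h6, h7⟩ := h
        have hkm : k ≠ m' := by
          intro he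
          have : (k : ℝ) = m' := by exact_mod_cast he
          linarith
        have hkk : k = k' := by
          have hd : k ∣ m' ^ 2 * k' := by rw [← h6]; exact dvd_mul_left _ _
          rcases (k1.dvd_mul).1 hd with h | h
          · exact absurd ((Nat.prime_dvd_prime_iff_eq k1 m1').1 (k1.dvd_of_dvd_pow h)) hkm
          · exact (Nat.prime_dvd_prime_iff_eq k1 k1').1 h
        have hmm : m = m' := by
          rw [hkk] at h6
          have h8 := Nat.eq_of_mul_eq_mul_right k1'.pos h6
          exact Nat.pow_left_injective (n := 2) (by norm_num) h8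
        simp only [Prod.mk.injEq]
        exact ⟨hmm, hkk, h7⟩
    have hcard' : ((DP P).card : ℝ) * (((DP Y).card : ℝ) * ((DP (1 / 4 * Z)).card : ℝ)) ≤
        (hfin.toFinset.card : ℝ) := by
      rw [card_product, card_product] at hcard
      exact_mod_cast hcard
    refine le_trans ?_ hcard'
    have h6 : (P * (Y * (1 / 4 * Z))) ^ (1 - η) ≤
        ((DP P).card : ℝ) * (((DP Y).card : ℝ) * ((DP (1 / 4 * Z)).card : ℝ)) := by
      rw [Real.mul_rpow hP0.le (by positivity), Real.mul_rpow hY0.le (by positivity)]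
      gcongr
    refine le_trans ?_ h6
    have h7 : P * (Y * (1 / 4 * Z)) = 1 / 256 * X ^ (1 - M) := by
      rw [hP, hY, hZ]
      calc X ^ (3 * M - 1) * (1 / 64 * X ^ (2 - 5 * M) * (1 / 4 * X ^ M)) =
            1 / 256 * (X ^ (3 * M - 1) * X ^ (2 - 5 * M) * X ^ M) := by ring
        _ = _ := by
            rw [← Real.rpow_add hX0, ← Real.rpow_add hX0]
            congr 2
            ring
    rw [h7, Real.mul_rpow (by norm_num) (by positivity), ← Real.rpow_mul hX0.le]
    have h8 : (1 : ℝ) / 256 ≤ (1 / 256 : ℝ) ^ (1 - η) := by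
      calc (1 : ℝ) / 256 = (1 / 256 : ℝ) ^ (1 : ℝ) := by rw [Real.rpow_one]
        _ ≤ _ := Real.rpow_le_rpow_of_exponent_ge (by norm_num) (by norm_num) (by linarith)
    have h9 : X ^ (1 - M - ε) * 256 ≤ X ^ ((1 - M) * (1 - η)) := by
      calc X ^ (1 - M - ε) * 256 ≤ X ^ (1 - M - ε) * X ^ (ε / 2) :=
            mul_le_mul_of_nonneg_left h5 (by positivity)
        _ = X ^ (1 - M - ε / 2) := by
            rw [← Real.rpow_add hX0]
            congr 1
            ring
        _ ≤ _ := by
            refine Real.rpow_le_rpow_of_exponent_le hX ?_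
            have : 0 ≤ M * η := by positivity
            nlinarith
    calc X ^ (1 - M - ε) = 1 / 256 * (X ^ (1 - M - ε) * 256) := by ring
      _ ≤ (1 / 256 : ℝ) ^ (1 - η) * X ^ ((1 - M) * (1 - η)) := by gcongr
  obtain ⟨X₀, hX₀⟩ := eventually_atTop.1 key
  exact ⟨X₀, hX₀⟩

end Pool.Agent.Y911.AB
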