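import Pool.Agent.Y911.AB.Upper
import Pool.Agent.Y911.AB.Lower

/-! The exact exponent of the number of exceptions close to the threshold. -/

set_option autoImplicit false

namespace Pool.Agent.Y911.AB

open Filter Topology
open Pool.Agent.Y911.AA (viol)

/-- an exponent from upper and lower bounds -/
theorem tendsto_exponent {f : ℝ → ℝ} {L : ℝ}
    (h1 : ∀ ε : ℝ, 0 < ε → ∃ C : ℝ, 0 < C ∧ ∀ X : ℝ, 1 ≤ X → f X ≤ C * X ^ (L + ε))
    (h2 : ∀ ε : ℝ, 0 < ε → ∃ X₀ : ℝ, ∀ X : ℝ, X₀ ≤ X → X ^ (L - ε) ≤ f X) :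
    Tendsto (fun X : ℝ => Real.log (f X) / Real.log X) atTop (𝓝 L) := by
  rw [Metric.tendsto_atTop]
  intro ε hε
  obtain ⟨C, hC, hup⟩ := h1 (ε / 3) (by positivity)
  obtain ⟨X₀, hlo⟩ := h2 (ε / 3) (by positivity)
  have ht : Tendsto (fun X : ℝ => ε / 3 * Real.log X) atTop atTop :=
    Real.tendsto_log_atTop.const_mul_atTop (by positivity)
  obtain ⟨X₁, hX₁⟩ := eventually_atTop.1 (ht.eventually (eventually_ge_atTop (Real.log C)))
  refine ⟨max (max X₀ X₁) 2, fun X hX => ?_⟩
  have hX0 : X₀ ≤ X := (le_max_left _ _).trans ((le_max_left _ _).trans hX)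
  have hX1 : X₁ ≤ X := (le_max_right _ _).trans ((le_max_left _ _).trans hX)
  have hX2 : 2 ≤ X := (le_max_right _ _).trans hX
  have hXp : 0 < X := by linarith
  have hl : 0 < Real.log X := Real.log_pos (by linarith)
  have hf0 : 0 < f X := lt_of_lt_of_le (by positivity) (hlo X hX0)
  have e1 : Real.log (f X) ≤ Real.log C + (L + ε / 3) * Real.log X := by
    rw [← Real.log_rpow hXp, ← Real.log_mul hC.ne' (by positivity)]
    exact Real.log_le_log hf0 (hup X (by linarith))
  have e2 : (L - ε / 3) * Real.log X ≤ Real.log (f X) := by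
    rw [← Real.log_rpow hXp]
    exact Real.log_le_log (by positivity) (hlo X hX0)
  have e3 := hX₁ X hX1
  rw [Real.dist_eq, abs_lt]
  have hεl : 0 < ε * Real.log X := by positivity
  constructor
  · rw [neg_lt_sub_iff_lt_add, ← sub_lt_iff_lt_add', lt_div_iff₀ hl]
    linarith
  · rw [sub_lt_iff_lt_add', div_lt_iff₀ hl]
    linarith

open Pool.Agent.Results.MP_1ea25c_nt.AlmostAllTriples in
theorem triples_finite' (X : ℝ) : (triples X).Finite := by
  rcases le_or_gt 1 X with h | h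
  · exact triples_finite h
  · have : triples X = ∅ := by
      rw [Set.eq_empty_iff_forall_notMem]
      intro p hp
      have h1 : (rad3 p : ℝ) ≤ X := hp.2.2.2
      have h2 := Pool.Agent.Y911.AA.rad3_one (p := p)
      linarith
    rw [this]
    exact Set.finite_empty

/-- **The exponent.** -/
theorem main : ∃ M₀ : ℝ, 1 / 3 < M₀ ∧ ∀ M : ℝ, 1 / 3 < M → M ≤ M₀ →
    Tendsto (fun X : ℝ => Real.log ((viol M X).ncard : ℝ) / Real.log X) atTop (𝓝 (1 - M)) := by
  obtain ⟨M₀, h1, h2, hup⟩ := upper_exc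
  refine ⟨M₀, h1, fun M hM hM0 => ?_⟩
  exact tendsto_exponent (hup M hM hM0) fun ε hε => lower_exc hM (by linarith) hε

end Pool.Agent.Y911.AB
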