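import Pool.Agent.Y911.AA.Final
import Pool.Agent.TH498.AR.Neg

/-! The upper bound for the number of exceptions close to the threshold. -/

set_option autoImplicit false

namespace Pool.Agent.Y911.AB

open Finset Pool.Agent.Results.MP_1ea25c_nt.AlmostAllTriples Pool.Agent.TH498.AR
open Pool.Agent.Y911.AA (viol)

theorem radP_rad3 (p : ℕ × ℕ) : radP ∅ (p.1 * p.2 * (p.1 + p.2)) = rad3 p := by
  unfold radP rad3 radical
  simp

/-- the triples of the boxes -/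
theorem box_exc {M σ : ℝ} (hM : 1 / 3 < M) (hM1 : M < 1) (hσ0 : 0 < σ) (hσ1 : σ < 1) :
    ∃ C : ℝ, 0 < C ∧ ∀ X : ℝ, 1 ≤ X → ∀ (i j : ℕ) (E : Finset (ℕ × ℕ)),
    (∀ p ∈ E, p ∈ triples X ∧ (rad3 p : ℝ) ^ M ≤ ((p.1 + p.2 : ℕ) : ℝ) ∧
      psi3 ∅ p ≤ ⌊X ^ (1 / 10 : ℝ)⌋₊ ∧ ⌊X ^ (1 / 10 : ℝ)⌋₊ ^ 2 ≤ p.1 ∧
      Nat.clog 2 p.1 = i ∧ Nat.clog 2 p.2 = j) →
    (E.card : ℝ) ≤ C * X ^ (1 - M + (1 - σ) / 10) := by
  obtain ⟨K1, K2, hK1, hK2, hK⟩ := box_count σ hσ0 hσ1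
  refine ⟨16 * K1, by positivity, fun X hX i j E hE => ?_⟩
  have hX0 : 0 < X := by linarith
  have hM0 : 0 < M := by linarith
  rcases E.eq_empty_or_nonempty with h0 | ⟨p0, hp0⟩
  · rw [h0, card_empty, Nat.cast_zero]; positivity
  obtain ⟨N, hN⟩ : ∃ N : ℕ, N = ⌊X ^ (1 / 10 : ℝ)⌋₊ := ⟨_, rfl⟩
  rw [← hN] at hE
  -- the bound for the radical
  obtain ⟨R, hR⟩ : ∃ R : ℝ, R = min X ((2 : ℝ) ^ ((j + 1 : ℝ) / M)) := ⟨_, rfl⟩
  have hR0 : 0 < R := by rw [hR]; exact lt_min hX0 (by positivity)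
  obtain ⟨s, hs⟩ : ∃ s : ℝ, s = (2 : ℝ) ^ i * 2 ^ j * 2 ^ j / (8 * R) := ⟨_, rfl⟩
  have hs0 : 0 < s := by rw [hs]; positivity
  have hfacts : ∀ p ∈ E, p.1 ∈ Icc 1 (2 ^ i) ∧ p.2 ∈ Icc 1 (2 ^ j) ∧ Nat.Coprime p.1 p.2 ∧
      s ≤ (psi3 ∅ p : ℝ) ∧ psi3 ∅ p ≤ N := by
    intro p hp
    obtain ⟨⟨a1, a2, a3, a4⟩, a5, a6, a7, a8, a9⟩ := hE p hp
    have hb : 0 < p.2 := by omega
    have l1 : p.1 ≤ 2 ^ i := by rw [← a8]; exact Nat.le_pow_clog (by norm_num) _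
    have l2 : p.2 ≤ 2 ^ j := by rw [← a9]; exact Nat.le_pow_clog (by norm_num) _
    refine ⟨mem_Icc.2 ⟨a1, l1⟩, mem_Icc.2 ⟨hb, l2⟩, a3, ?_, a6⟩
    have c1 := clog_le a1
    have c2 := clog_le hb
    rw [a8] at c1
    rw [a9] at c2
    have hrad0 : (0 : ℝ) < rad3 p := by exact_mod_cast rad3_pos p
    have hpsi : (psi3 ∅ p : ℝ) * rad3 p = (p.1 : ℝ) * p.2 * ((p.1 + p.2 : ℕ) : ℝ) := by
      have := coprime3 (P := ∅) a3
      rw [radP_rad3] at this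
      exact_mod_cast this
    have hRle : (rad3 p : ℝ) ≤ R := by
      rw [hR]
      refine le_min a4 ?_
      have e1 : ((p.1 + p.2 : ℕ) : ℝ) ≤ (2 : ℝ) ^ (j + 1) := by
        have : p.1 + p.2 ≤ 2 ^ (j + 1) := by rw [pow_succ]; omega
        exact_mod_cast this
      have e2 : (rad3 p : ℝ) ≤ ((p.1 + p.2 : ℕ) : ℝ) ^ (1 / M) := by
        calc (rad3 p : ℝ) = ((rad3 p : ℝ) ^ M) ^ (1 / M) := by
              rw [← Real.rpow_mul hrad0.le, mul_one_div_cancel hM0.ne', Real.rpow_one]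
          _ ≤ _ := Real.rpow_le_rpow (by positivity) a5 (by positivity)
      refine e2.trans ?_
      calc ((p.1 + p.2 : ℕ) : ℝ) ^ (1 / M) ≤ ((2 : ℝ) ^ (j + 1)) ^ (1 / M) :=
            Real.rpow_le_rpow (Nat.cast_nonneg _) e1 (by positivity)
        _ = (2 : ℝ) ^ ((j + 1 : ℝ) / M) := by
            rw [← Real.rpow_natCast, ← Real.rpow_mul (by norm_num)]
            congr 1
            push_cast
            ring
    rw [hs, div_le_iff₀ (by positivity)]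
    have e3 : (p.2 : ℝ) ≤ ((p.1 + p.2 : ℕ) : ℝ) := by exact_mod_cast Nat.le_add_left _ _
    have hp1 : (0 : ℝ) < p.1 := by exact_mod_cast a1
    have hp2 : (0 : ℝ) < p.2 := by exact_mod_cast hb
    calc (2 : ℝ) ^ i * 2 ^ j * 2 ^ j ≤ (2 * p.1) * (2 * p.2) * (2 * p.2) := by gcongr
      _ = 8 * ((p.1 : ℝ) * p.2 * p.2) := by ring
      _ ≤ 8 * ((p.1 : ℝ) * p.2 * ((p.1 + p.2 : ℕ) : ℝ)) := by gcongr
      _ = 8 * (psi3 ∅ p * rad3 p) := by rw [hpsi]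
      _ ≤ 8 * (psi3 ∅ p * R) := by gcongr
      _ = psi3 ∅ p * (8 * R) := by ring
  have hN2 : N ^ 2 ≤ 2 ^ j := by
    obtain ⟨⟨a1, a2, a3, a4⟩, a5, a6, a7, a8, a9⟩ := hE p0 hp0
    have l2 : p0.2 ≤ 2 ^ j := by rw [← a9]; exact Nat.le_pow_clog (by norm_num) _
    omega
  have hcount := hK ∅ (2 ^ i) (2 ^ j) N s hs0 hN2 E hfacts
  rw [card_empty, pow_zero, mul_one] at hcount
  push_cast at hcount
  -- the bound for `s ^ (1 - σ)`
  have hs1 : s ^ (-σ) ≤ s⁻¹ * X ^ ((1 - σ) / 10) := by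
    have e1 : s ^ (-σ) = s⁻¹ * s ^ (1 - σ) := by
      rw [← Real.rpow_neg_one, ← Real.rpow_add hs0]
      congr 1
      ring
    rw [e1]
    apply mul_le_mul_of_nonneg_left _ (by positivity)
    have e2 : s ≤ X ^ (1 / 10 : ℝ) := by
      have h1 := hfacts p0 hp0
      calc s ≤ (psi3 ∅ p0 : ℝ) := h1.2.2.2.1
        _ ≤ (N : ℝ) := by exact_mod_cast h1.2.2.2.2
        _ ≤ _ := by rw [hN]; exact Nat.floor_le (by positivity)
    calc s ^ (1 - σ) ≤ (X ^ (1 / 10 : ℝ)) ^ (1 - σ) :=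
          Real.rpow_le_rpow hs0.le e2 (by linarith)
      _ = X ^ ((1 - σ) / 10) := by
          rw [← Real.rpow_mul hX0.le]
          congr 1
          ring
  have hRj : R ≤ 2 ^ j * (2 * X ^ (1 - M)) := by
    have h2j : (0 : ℝ) < 2 ^ j := by positivity
    rcases le_or_gt (X ^ M) ((2 : ℝ) ^ (j + 1)) with h | h
    · calc R ≤ X := by rw [hR]; exact min_le_left _ _
        _ = X ^ M * X ^ (1 - M) := by
            rw [← Real.rpow_add hX0]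
            conv_lhs => rw [← Real.rpow_one X]
            congr 1
            ring
        _ ≤ (2 : ℝ) ^ (j + 1) * X ^ (1 - M) := mul_le_mul_of_nonneg_right h (by positivity)
        _ = _ := by rw [pow_succ]; ring
    · calc R ≤ (2 : ℝ) ^ ((j + 1 : ℝ) / M) := by rw [hR]; exact min_le_right _ _
        _ = (2 : ℝ) ^ (j + 1 : ℝ) * ((2 : ℝ) ^ (j + 1 : ℝ)) ^ (1 / M - 1) := by
            rw [← Real.rpow_mul (by norm_num), ← Real.rpow_add (by norm_num)]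
            congr 1
            field_simp
            ring
        _ ≤ (2 : ℝ) ^ (j + 1 : ℝ) * (X ^ M) ^ (1 / M - 1) := by
            apply mul_le_mul_of_nonneg_left _ (by positivity)
            refine Real.rpow_le_rpow (by positivity) ?_ ?_
            · refine le_trans (le_of_eq ?_) h.le
              rw [← Real.rpow_natCast]
              push_cast
              rfl
            · rw [sub_nonneg, le_div_iff₀ hM0]
              linarith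
        _ = (2 : ℝ) ^ (j + 1 : ℝ) * X ^ (1 - M) := by
            rw [← Real.rpow_mul hX0.le]
            congr 2
            field_simp
        _ = _ := by
            rw [Real.rpow_add_one (by norm_num), Real.rpow_natCast]
            ring
  calc (E.card : ℝ) ≤ K1 * (2 ^ i * 2 ^ j) * s ^ (-σ) := hcount
    _ ≤ K1 * (2 ^ i * 2 ^ j) * (s⁻¹ * X ^ ((1 - σ) / 10)) :=
        mul_le_mul_of_nonneg_left hs1 (by positivity)
    _ = K1 * (8 * R / 2 ^ j) * X ^ ((1 - σ) / 10) := by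
        rw [hs]
        field_simp
    _ ≤ K1 * (8 * (2 ^ j * (2 * X ^ (1 - M))) / 2 ^ j) * X ^ ((1 - σ) / 10) := by gcongr
    _ = 16 * K1 * (X ^ (1 - M) * X ^ ((1 - σ) / 10)) := by
        field_simp
        ring
    _ = _ := by rw [← Real.rpow_add hX0]

/-- the number of boxes -/
theorem boxes_le {δ : ℝ} (hδ : 0 < δ) {X : ℝ} (hX : 1 ≤ X) :
    ((⌊Real.log (2 * X) / Real.log 2⌋₊ : ℝ) + 1) ^ 2 ≤ (2 + 4 / δ) ^ 2 * X ^ δ := by
  have hX0 : 0 < X := by linarith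
  have hl2 : 0 < Real.log 2 := Real.log_pos (by norm_num)
  have hl2' : 0.6931471803 < Real.log 2 := Real.log_two_gt_d9
  have h1 : (⌊Real.log (2 * X) / Real.log 2⌋₊ : ℝ) ≤ Real.log (2 * X) / Real.log 2 :=
    Nat.floor_le (div_nonneg (Real.log_nonneg (by linarith)) hl2.le)
  have h2 : Real.log (2 * X) / Real.log 2 = 1 + Real.log X / Real.log 2 := by
    rw [Real.log_mul (by norm_num) hX0.ne', add_div, div_self hl2.ne']
  have h3 : Real.log X ≤ X ^ (δ / 2) / (δ / 2) := Real.log_le_rpow_div hX0.le (by positivity)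
  have h4 : Real.log X / Real.log 2 ≤ 2 * Real.log X := by
    rw [div_le_iff₀ hl2]
    have : 0 ≤ Real.log X := Real.log_nonneg hX
    nlinarith
  have h5 : (1 : ℝ) ≤ X ^ (δ / 2) := Real.one_le_rpow hX (by positivity)
  have h6 : (⌊Real.log (2 * X) / Real.log 2⌋₊ : ℝ) + 1 ≤ (2 + 4 / δ) * X ^ (δ / 2) := by
    have : X ^ (δ / 2) / (δ / 2) = 2 / δ * X ^ (δ / 2) := by field_simp
    rw [this] at h3
    have h7 : (2 + 4 / δ) * X ^ (δ / 2) = 2 * X ^ (δ / 2) + 2 * (2 / δ * X ^ (δ / 2)) := by ring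
    rw [h7]
    linarith
  calc ((⌊Real.log (2 * X) / Real.log 2⌋₊ : ℝ) + 1) ^ 2 ≤ ((2 + 4 / δ) * X ^ (δ / 2)) ^ 2 :=
        pow_le_pow_left₀ (by positivity) h6 2
    _ = (2 + 4 / δ) ^ 2 * X ^ δ := by
        rw [mul_pow, ← Real.rpow_natCast (X ^ (δ / 2)), ← Real.rpow_mul hX0.le]
        congr 2
        push_cast
        ring

/-- the triples of small height, of small repeated part and with `a` not small -/
theorem main_exc {M ε : ℝ} (hM : 1 / 3 < M) (hM1 : M < 1) (hε : 0 < ε) :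
    ∃ C : ℝ, 0 < C ∧ ∀ X : ℝ, 1 ≤ X → ∀ E : Finset (ℕ × ℕ),
    (∀ p ∈ E, p ∈ triples X ∧ (rad3 p : ℝ) ^ M ≤ ((p.1 + p.2 : ℕ) : ℝ) ∧
      psi3 ∅ p ≤ ⌊X ^ (1 / 10 : ℝ)⌋₊ ∧ ⌊X ^ (1 / 10 : ℝ)⌋₊ ^ 2 ≤ p.1 ∧
      ((p.1 + p.2 : ℕ) : ℝ) ≤ X) →
    (E.card : ℝ) ≤ C * X ^ (1 - M + ε) := by
  classical
  obtain ⟨σ, hσ⟩ : ∃ σ : ℝ, σ = max (1 / 2) (1 - ε) := ⟨_, rfl⟩
  have hσ0 : 0 < σ := by rw [hσ]; exact lt_max_of_lt_left (by norm_num)
  have hσ1 : σ < 1 := by rw [hσ]; exact max_lt (by norm_num) (by linarith)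
  have hσε : 1 - ε ≤ σ := by rw [hσ]; exact le_max_right _ _
  obtain ⟨K, hK, hbox⟩ := box_exc hM hM1 hσ0 hσ1
  refine ⟨(2 + 4 / (ε / 2)) ^ 2 * K, by positivity, fun X hX E hE => ?_⟩
  have hX0 : 0 < X := by linarith
  obtain ⟨J, hJ⟩ : ∃ J : ℕ, J = ⌊Real.log (2 * X) / Real.log 2⌋₊ := ⟨_, rfl⟩
  have hl2 : 0 < Real.log 2 := Real.log_pos (by norm_num)
  have hclog : ∀ n : ℕ, 0 < n → (n : ℝ) ≤ X → Nat.clog 2 n ∈ range (J + 1) := by
    intro n hn hnX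
    rw [mem_range, Nat.lt_succ_iff, hJ]
    refine Nat.le_floor ?_
    rw [le_div_iff₀ hl2, ← Real.log_pow]
    apply Real.log_le_log (by positivity)
    exact (clog_le hn).trans (by linarith)
  have hmap : ∀ p ∈ E, (Nat.clog 2 p.1, Nat.clog 2 p.2) ∈ range (J + 1) ×ˢ range (J + 1) := by
    intro p hp
    obtain ⟨⟨a1, a2, a3, a4⟩, a5, a6, a7, a8⟩ := hE p hp
    have hb : 0 < p.2 := by omega
    have e1 : (p.1 : ℝ) ≤ X := le_trans (by exact_mod_cast Nat.le_add_right _ _) a8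
    have e2 : (p.2 : ℝ) ≤ X := le_trans (by exact_mod_cast Nat.le_add_left _ _) a8
    exact mem_product.2 ⟨hclog _ a1 e1, hclog _ hb e2⟩
  have h1 : E.card = ∑ ij ∈ range (J + 1) ×ˢ range (J + 1),
      (E.filter (fun p => (Nat.clog 2 p.1, Nat.clog 2 p.2) = ij)).card :=
    card_eq_sum_card_fiberwise hmap
  have h2 : ∀ ij ∈ range (J + 1) ×ˢ range (J + 1),
      ((E.filter (fun p => (Nat.clog 2 p.1, Nat.clog 2 p.2) = ij)).card : ℝ) ≤
      K * X ^ (1 - M + (1 - σ) / 10) := by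
    intro ij _
    refine hbox X hX ij.1 ij.2 _ fun p hp => ?_
    rw [mem_filter] at hp
    obtain ⟨a1, a2, a3, a4, a5⟩ := hE p hp.1
    have := hp.2
    exact ⟨a1, a2, a3, a4, by rw [← this], by rw [← this]⟩
  have hb := boxes_le (δ := ε / 2) (by positivity) hX
  rw [← hJ] at hb
  calc (E.card : ℝ) = ∑ ij ∈ range (J + 1) ×ˢ range (J + 1),
        ((E.filter (fun p => (Nat.clog 2 p.1, Nat.clog 2 p.2) = ij)).card : ℝ) := by
        rw [h1]; push_cast; rfl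
    _ ≤ ∑ _ij ∈ range (J + 1) ×ˢ range (J + 1), K * X ^ (1 - M + (1 - σ) / 10) := sum_le_sum h2
    _ = ((J : ℝ) + 1) ^ 2 * (K * X ^ (1 - M + (1 - σ) / 10)) := by
        rw [sum_const, card_product, card_range, nsmul_eq_mul]
        push_cast
        ring
    _ ≤ ((2 + 4 / (ε / 2)) ^ 2 * X ^ (ε / 2)) * (K * X ^ (1 - M + (1 - σ) / 10)) :=
        mul_le_mul_of_nonneg_right hb (by positivity)
    _ = (2 + 4 / (ε / 2)) ^ 2 * K * (X ^ (ε / 2) * X ^ (1 - M + (1 - σ) / 10)) := by ring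
    _ ≤ (2 + 4 / (ε / 2)) ^ 2 * K * X ^ (1 - M + ε) := by
        apply mul_le_mul_of_nonneg_left _ (by positivity)
        rw [← Real.rpow_add hX0]
        exact Real.rpow_le_rpow_of_exponent_le hX (by linarith)

/-- **The upper bound for the exceptions close to the threshold.** -/
theorem upper_exc : ∃ M₀ : ℝ, 1 / 3 < M₀ ∧ M₀ ≤ 1 / 3 + 1 / 120 ∧
    ∀ M : ℝ, 1 / 3 < M → M ≤ M₀ → ∀ ε : ℝ, 0 < ε →
    ∃ C : ℝ, 0 < C ∧ ∀ X : ℝ, 1 ≤ X → ((viol M X).ncard : ℝ) ≤ C * X ^ (1 - M + ε) := by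
  classical
  obtain ⟨ν, C1, hν, -, hC1, hsav⟩ := Pool.Agent.Y911.AA.saving (ε := 1 / 240) (by norm_num)
  obtain ⟨N1, N2, hN1, hN2, hneg⟩ := neg_count
  refine ⟨1 / 3 + min ν (1 / 120), by linarith [lt_min hν (by norm_num : (0 : ℝ) < 1 / 120)],
    by linarith [min_le_right ν (1 / 120)], fun M hM hM0 ε hε => ?_⟩
  have hMν : M ≤ 1 / 3 + ν := hM0.trans (by linarith [min_le_left ν (1 / 120)])
  have hM2 : M ≤ 1 / 3 + 1 / 120 := hM0.trans (by linarith [min_le_right ν (1 / 120)])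
  obtain ⟨C2, hC2, hmain⟩ := main_exc hM (by linarith) hε
  refine ⟨C1 + N1 + C2, by positivity, fun X hX => ?_⟩
  have hX0 : 0 < X := by linarith
  have hfin : (viol M X).Finite := (triples_finite hX).subset fun p hp => hp.1
  rw [Set.ncard_eq_toFinset_card _ hfin]
  obtain ⟨F, hF⟩ : ∃ F, F = hfin.toFinset := ⟨_, rfl⟩
  rw [← hF]
  have hFm : ∀ p ∈ F, p ∈ viol M X := fun p hp => by
    rw [hF, Set.Finite.mem_toFinset] at hp
    exact hp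
  obtain ⟨F1, hF1⟩ : ∃ F1, F1 = F.filter fun p : ℕ × ℕ =>
    X ^ (1 / 3 + 1 / 240 : ℝ) ≤ ((p.1 + p.2 : ℕ) : ℝ) := ⟨_, rfl⟩
  obtain ⟨F2, hF2⟩ : ∃ F2, F2 = F.filter fun p : ℕ × ℕ =>
    ((p.1 + p.2 : ℕ) : ℝ) ≤ X ^ (1 / 3 + 1 / 240 : ℝ) ∧
    ¬ (psi3 ∅ p ≤ ⌊X ^ (1 / 10 : ℝ)⌋₊ ∧ ⌊X ^ (1 / 10 : ℝ)⌋₊ ^ 2 ≤ p.1) := ⟨_, rfl⟩
  obtain ⟨F3, hF3⟩ : ∃ F3, F3 = F.filter fun p : ℕ × ℕ =>
    ((p.1 + p.2 : ℕ) : ℝ) ≤ X ^ (1 / 3 + 1 / 240 : ℝ) ∧
    (psi3 ∅ p ≤ ⌊X ^ (1 / 10 : ℝ)⌋₊ ∧ ⌊X ^ (1 / 10 : ℝ)⌋₊ ^ 2 ≤ p.1) := ⟨_, rfl⟩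
  have hcov : F ⊆ F1 ∪ F2 ∪ F3 := by
    intro p hp
    by_cases c1 : X ^ (1 / 3 + 1 / 240 : ℝ) ≤ ((p.1 + p.2 : ℕ) : ℝ)
    · exact mem_union_left _ (mem_union_left _ (by rw [hF1]; exact mem_filter.2 ⟨hp, c1⟩))
    have c1' := (not_le.1 c1).le
    by_cases c2 : psi3 ∅ p ≤ ⌊X ^ (1 / 10 : ℝ)⌋₊ ∧ ⌊X ^ (1 / 10 : ℝ)⌋₊ ^ 2 ≤ p.1
    · exact mem_union_right _ (by rw [hF3]; exact mem_filter.2 ⟨hp, c1', c2⟩)
    · exact mem_union_left _ (mem_union_right _ (by rw [hF2]; exact mem_filter.2 ⟨hp, c1', c2⟩))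
  have hcard : (F.card : ℝ) ≤ F1.card + F2.card + F3.card := by
    have a0 := card_le_card hcov
    have a1 := card_union_le (F1 ∪ F2) F3
    have a2 := card_union_le F1 F2
    have : F.card ≤ F1.card + F2.card + F3.card := by omega
    exact_mod_cast this
  have b1 : (F1.card : ℝ) ≤ C1 * X ^ (1 - M + ε) := by
    have hsub : (F1 : Set (ℕ × ℕ)) ⊆ viol (1 / 3 + 1 / 240) X := by
      intro p hp
      rw [mem_coe, hF1, mem_filter] at hp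
      have hv := hFm p hp.1
      refine ⟨hv.1, le_trans ?_ hp.2⟩
      exact Real.rpow_le_rpow (Nat.cast_nonneg _) hv.1.2.2.2 (by norm_num)
    have h5 := Set.ncard_le_ncard hsub ((triples_finite hX).subset fun p hp => hp.1)
    rw [Set.ncard_coe_finset] at h5
    calc (F1.card : ℝ) ≤ _ := by exact_mod_cast h5
      _ ≤ _ := hsav X hX
      _ ≤ C1 * X ^ (1 - M + ε) := by
          apply mul_le_mul_of_nonneg_left _ hC1.le
          exact Real.rpow_le_rpow_of_exponent_le hX (by linarith)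
  have b2 : (F2.card : ℝ) ≤ N1 * X ^ (1 - M + ε) := by
    have h5 := hneg ∅ X hX F2 (fun p hp => by
      rw [hF2, mem_filter] at hp
      have hv := (hFm p hp.1).1
      exact ⟨hv.1, lt_of_lt_of_le hv.1 hv.2.1, hp.2.1, hp.2.2⟩)
    rw [card_empty, pow_zero, mul_one] at h5
    refine h5.trans (mul_le_mul_of_nonneg_left ?_ (by linarith))
    exact Real.rpow_le_rpow_of_exponent_le hX (by linarith)
  have b3 : (F3.card : ℝ) ≤ C2 * X ^ (1 - M + ε) := by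
    refine hmain X hX F3 fun p hp => ?_
    rw [hF3, mem_filter] at hp
    have hv := hFm p hp.1
    refine ⟨hv.1, hv.2, hp.2.2.1, hp.2.2.2, hp.2.1.trans ?_⟩
    calc X ^ (1 / 3 + 1 / 240 : ℝ) ≤ X ^ (1 : ℝ) :=
          Real.rpow_le_rpow_of_exponent_le hX (by norm_num)
      _ = X := Real.rpow_one X
  calc (F.card : ℝ) ≤ F1.card + F2.card + F3.card := hcard
    _ ≤ C1 * X ^ (1 - M + ε) + N1 * X ^ (1 - M + ε) + C2 * X ^ (1 - M + ε) := by linarith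
    _ = _ := by ring

end Pool.Agent.Y911.AB
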